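import Pool.Agent.H11.LGR.Targets

/-! # Row GXF: the free group -/

set_option autoImplicit false

open MvPolynomial Pool.Agent.H87.CLG Pool.Agent.H11.LGR

namespace Pool.Agent.H72.LGR

theorem pf_GXF : T_GXF where
  one := Or.inl rfl
  inv := by
    rintro x (rfl | ⟨g, i, rfl | rfl⟩)
    · exact Or.inl (by simp)
    · exact Or.inr ⟨g, i, Or.inr (by simp [mul_assoc])⟩
    · exact Or.inr ⟨g, i, Or.inl (by simp [mul_assoc])⟩
  conj := by
    rintro h x (rfl | ⟨g, i, rfl | rfl⟩)
    · exact Or.inl (by simp)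
    · exact Or.inr ⟨h * g, i, Or.inl (by simp [mul_assoc])⟩
    · exact Or.inr ⟨h * g, i, Or.inr (by simp [mul_assoc])⟩
  gen := by
    rw [eq_top_iff, ← FreeGroup.closure_range_of]
    refine Subgroup.closure_mono ?_
    rintro _ ⟨i, rfl⟩
    exact Or.inr ⟨1, i, Or.inl (by simp)⟩

end Pool.Agent.H72.LGR
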