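import Pool.Agent.H11.LGR.Targets

/-! # Row NDG: the trace form is nondegenerate -/

set_option autoImplicit false

open MvPolynomial Pool.Agent.H87.CLG Pool.Agent.H11.LGR

namespace Pool.Agent.H72.LGR

theorem pf_NDG : T_NDG := by
  intro F W _ _ _ _ f hf
  ext w
  by_contra hne
  have hne' : f w ≠ 0 := hne
  obtain ⟨φ, hφ⟩ : ∃ φ : Module.Dual F W, φ (f w) ≠ 0 := by
    by_contra h
    push Not at h
    exact hne' ((Module.forall_dual_apply_eq_zero_iff F (f w)).1 h)
  have h1 := hf (φ.smulRight w)
  have h2 : f * φ.smulRight w = φ.smulRight (f w) := by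
    ext x
    simp [Module.End.mul_apply]
  rw [h2, LinearMap.trace_smulRight] at h1
  exact hφ h1

end Pool.Agent.H72.LGR
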