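import Pool.Agent.H11.LGR.Targets

/-! # Row STB: stable submodules and ideals -/

set_option autoImplicit false

open MvPolynomial Pool.Agent.H87.CLG Pool.Agent.H11.LGR

namespace Pool.Agent.H72.LGR

theorem pf_STB : T_STB := by
  intro R M S Γ _ _ _ _ _ n A L J hL hJ
  have hR : ∀ (σ : S) (r : R), A.sR σ (A.sR σ⁻¹ r) = r := fun σ r => by
    have h : (A.sR σ * A.sR σ⁻¹) r = r := by rw [← map_mul, mul_inv_cancel, map_one]; rfl
    exact h
  have hM : ∀ (σ : S) (m : M), A.sM σ (A.sM σ⁻¹ m) = m := fun σ m => by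
    have h : (A.sM σ * A.sM σ⁻¹) m = m := by rw [← map_mul, mul_inv_cancel, map_one]; rfl
    exact h
  refine ⟨⟨fun σ m hm => ?_, fun γ m hm => ?_⟩, ⟨fun σ m hm => ?_, fun γ m hm => ?_⟩,
    fun m hm r _ => L.smul_mem r hm, ?_, ?_⟩
  · obtain ⟨a, ha, b, hb, rfl⟩ := Submodule.mem_sup.1 hm
    rw [map_add]
    refine Submodule.add_mem_sup (hL.s σ a ha) ?_
    refine Submodule.smul_induction_on hb (fun r hr x _ => ?_) (fun x y hx hy => ?_)
    · rw [A.semi]
      exact Submodule.smul_mem_smul (hJ σ r hr) Submodule.mem_top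
    · rw [map_add]; exact Submodule.add_mem _ hx hy
  · obtain ⟨a, ha, b, hb, rfl⟩ := Submodule.mem_sup.1 hm
    rw [map_add]
    refine Submodule.add_mem_sup (hL.r γ a ha) ?_
    refine Submodule.smul_induction_on hb (fun r hr x _ => ?_) (fun x y hx hy => ?_)
    · rw [map_smul]
      exact Submodule.smul_mem_smul hr Submodule.mem_top
    · rw [map_add]; exact Submodule.add_mem _ hx hy
  · intro r hr
    have h1 : r • A.sM σ m = A.sM σ (A.sR σ⁻¹ r • m) := by rw [A.semi, hR]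
    rw [h1]
    exact hL.s σ _ (hm _ (hJ σ⁻¹ r hr))
  · intro r hr
    rw [← map_smul]
    exact hL.r γ _ (hm r hr)
  · intro σ r hr m
    have h1 : A.sR σ r • m = A.sM σ (r • A.sM σ⁻¹ m) := by rw [A.semi, hM]
    rw [h1]
    exact hL.s σ _ (hr _)
  · intro σ r hr
    obtain ⟨k, hk⟩ := hr
    refine ⟨k, ?_⟩
    intro m
    rw [← map_pow]
    have h1 : A.sR σ (r ^ k) • m = A.sM σ (r ^ k • A.sM σ⁻¹ m) := by rw [A.semi, hM]
    rw [h1]
    exact hL.s σ _ (hk _)

end Pool.Agent.H72.LGR
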