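import Pool.Agent.H11.LGR.Targets

/-! # Row UAC: the chain conditions -/

set_option autoImplicit false

open MvPolynomial Pool.Agent.H87.CLG Pool.Agent.H11.LGR

namespace Pool.Agent.H72.LGR

/-- an injective function agrees with a permutation below `N` -/
theorem exists_perm {σ : ℕ → ℕ} (hσ : Function.Injective σ) (N : ℕ) :
    ∃ π : Equiv.Perm ℕ, ∀ i < N, π i = σ i := by
  induction N with
  | zero => exact ⟨1, fun i hi => absurd hi (Nat.not_lt_zero i)⟩
  | succ N ih =>
    obtain ⟨π, hπ⟩ := ih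
    refine ⟨Equiv.swap (π N) (σ N) * π, fun i hi => ?_⟩
    rcases Nat.lt_succ_iff_lt_or_eq.1 hi with h | h
    · rw [Equiv.Perm.mul_apply, Equiv.swap_apply_of_ne_of_ne, hπ i h]
      · intro he; exact absurd (π.injective he) h.ne
      · rw [hπ i h]; intro he; exact absurd (hσ he) h.ne
    · subst h
      rw [Equiv.Perm.mul_apply, Equiv.swap_apply_left]

theorem sh_congr {Λ : Type} {σ τ : ℕ → ℕ} (f : PR Λ)
    (h : ∀ v ∈ f.vars, σ v.1 = τ v.1) : sh σ f = sh τ f := by
  refine MvPolynomial.hom_congr_vars (RingHom.ext_int _ _) ?_ rfl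
  rintro ⟨i, l⟩ hi _
  have h1 : σ i = τ i := h _ hi
  have h2 : ∀ ρ : ℕ → ℕ, sh ρ (X (i, l) : PR Λ) = X (ρ i, l) := fun ρ => by
    change rename _ (X (i, l)) = _
    rw [rename_X]
    rfl
  rw [h2, h2, h1]

theorem exists_perm_sh {Λ : Type} {n : ℕ} {σ : ℕ → ℕ} (hσ : Function.Injective σ)
    (f : Fin n → PR Λ) : ∃ π : Equiv.Perm ℕ, ∀ c, sh σ (f c) = sh π (f c) := by
  classical
  set N : ℕ := Finset.univ.sup fun c : Fin n => (f c).vars.sup fun v => v.1 + 1 with hN
  obtain ⟨π, hπ⟩ := exists_perm hσ N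
  refine ⟨π, fun c => sh_congr _ fun v hv => (hπ _ ?_).symm⟩
  have h1 : v.1 + 1 ≤ (f c).vars.sup fun v => v.1 + 1 :=
    Finset.le_sup (f := fun v : ℕ × Λ => v.1 + 1) hv
  have h2 : ((f c).vars.sup fun v => v.1 + 1) ≤ N :=
    Finset.le_sup (f := fun c : Fin n => (f c).vars.sup fun v => v.1 + 1) (Finset.mem_univ c)
  omega

theorem pf_UAC (hACM : T_ACM) (hACI : T_ACI) : T_UAC := by
  intro n K A hU _
  constructor
  · intro c hc hst
    obtain ⟨N, hN⟩ := hACM (LL n) n (fun j => (c j).comap K.mkQ) (fun j σ hσ f hf => by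
      obtain ⟨π, hπ⟩ := exists_perm_sh hσ.injective f
      have h1 : (fun k => sh σ (f k)) = fun k => sh π (f k) := funext hπ
      rw [h1]
      change K.mkQ (fun k => sh π (f k)) ∈ c j
      rw [← hU.hM π f]
      exact (hst j).s π _ hf) (fun i j hij => Submodule.comap_mono (hc hij))
    refine ⟨N, fun j hj => ?_⟩
    exact Submodule.comap_injective_of_surjective K.mkQ_surjective (hN j hj)
  · intro c hc hst
    refine hACI (LL n) c (fun j σ hσ f hf => ?_) hc
    obtain ⟨π, hπ⟩ := exists_perm_sh (n := 1) hσ.injective (fun _ => f)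
    rw [hπ 0, ← hU.hR]
    exact hst j π f hf

end Pool.Agent.H72.LGR
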