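import Pool.Agent.H11.LGR.Targets

/-! # Row UNP: unipotent elements of finite order -/

set_option autoImplicit false

open MvPolynomial Pool.Agent.H87.CLG Pool.Agent.H11.LGR

namespace Pool.Agent.H72.LGR

theorem pf_UNP : T_UNP := by
  intro F A _ _ _ u n hn
  constructor
  · intro m hm hum
    -- the geometric sum is a unit
    have h0 : (u - 1) * ∑ i ∈ Finset.range m, u ^ i = 0 := by
      rw [mul_geom_sum, hum, sub_self]
    have hcomm : ∀ i : ℕ, Commute (u - 1) (u ^ i) := fun i =>
      ((Commute.refl u).sub_left (Commute.one_left u)).pow_right i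
    -- the sum of the `u ^ i - 1`
    have h1 : ∑ i ∈ Finset.range m, u ^ i = (m : A) + (u - 1) *
        ∑ i ∈ Finset.range m, ∑ j ∈ Finset.range i, u ^ j := by
      rw [Finset.mul_sum]
      have : ∀ i ∈ Finset.range m, (u - 1) * ∑ j ∈ Finset.range i, u ^ j = u ^ i - 1 :=
        fun i _ => mul_geom_sum u i
      rw [Finset.sum_congr rfl this, Finset.sum_sub_distrib]
      simp
    have hc : Commute (u - 1) (∑ i ∈ Finset.range m, ∑ j ∈ Finset.range i, u ^ j) :=
      Commute.sum_right _ _ _ fun i _ => Commute.sum_right _ _ _ fun j _ => hcomm j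
    have hnil : IsNilpotent ((u - 1) * ∑ i ∈ Finset.range m, ∑ j ∈ Finset.range i, u ^ j) :=
      hc.isNilpotent_mul_right ⟨n, hn⟩
    have hu : IsUnit ((m : A)) := by
      have := (isUnit_iff_ne_zero.2 hm).map (algebraMap F A)
      simpa using this
    have hunit : IsUnit (∑ i ∈ Finset.range m, u ^ i) := by
      rw [h1]
      exact hnil.isUnit_add_left_of_commute hu (Nat.cast_commute m _).symm
    have h3 : u - 1 = 0 := (hunit.mul_left_eq_zero).1 h0
    exact sub_eq_zero.1 h3
  · intro p hp hchar
    rcases subsingleton_or_nontrivial A with hs | hnt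
    · exact Subsingleton.elim _ _
    · haveI : Fact p.Prime := ⟨hp⟩
      haveI : CharP A p := charP_of_injective_algebraMap (algebraMap F A).injective p
      have h1 : (u - 1) ^ p ^ n = u ^ p ^ n - 1 ^ p ^ n :=
        sub_pow_char_pow_of_commute _ _ (Commute.one_right u)
      have h2 : (u - 1) ^ p ^ n = 0 :=
        pow_eq_zero_of_le (Nat.lt_pow_self hp.one_lt).le hn
      rw [h2, one_pow] at h1
      exact (sub_eq_zero.1 h1.symm)

end Pool.Agent.H72.LGR
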