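import Pool.Agent.H11.LGR.Targets

/-! # Row ACT: the action of the free group -/

set_option autoImplicit false

open MvPolynomial Pool.Agent.H87.CLG Pool.Agent.H11.LGR

namespace Pool.Agent.H72.LGR

theorem pf_ACT : T_ACT := by
  intro n K hK hinv
  set a : ℕ → Bool → Module.End (PR (LL n)) ((Fin n → PR (LL n)) ⧸ K) := fun i b =>
    K.mapQ K (Matrix.mulVecLin (mt i b)) (fun f hf => hK i b f hf) with ha
  have hav : ∀ i b f, a i b (K.mkQ f) = K.mkQ ((mt i b).mulVec f) := fun i b f => rfl
  have hmul : ∀ i b, a i b * a i (!b) = 1 := by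
    intro i b
    refine LinearMap.ext fun q => ?_
    obtain ⟨f, rfl⟩ := K.mkQ_surjective q
    rw [Module.End.mul_apply, hav, hav, Module.End.one_apply]
    exact (Submodule.Quotient.eq K).2 (hinv i b f)
  set u : ℕ → (Module.End (PR (LL n)) ((Fin n → PR (LL n)) ⧸ K))ˣ := fun i =>
    ⟨a i true, a i false, hmul i true, hmul i false⟩ with hu
  have hcond : ∀ (i : ℕ) (b : Bool), ((cond b (u i) (u i)⁻¹ :
      (Module.End (PR (LL n)) ((Fin n → PR (LL n)) ⧸ K))ˣ) :
      Module.End (PR (LL n)) ((Fin n → PR (LL n)) ⧸ K)) = a i b := by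
    intro i b
    cases b <;> rfl
  refine ⟨(Units.coeHom _).comp (FreeGroup.lift u), fun l f => ?_⟩
  rw [MonoidHom.comp_apply, FreeGroup.lift_mk]
  induction l with
  | nil => simp [ev]
  | cons x l ih =>
    rw [List.map_cons, List.prod_cons, map_mul, Module.End.mul_apply, ih]
    have h1 : ev (x :: l) f = (mt x.1 x.2).mulVec (ev l f) := rfl
    rw [h1, ← hav, ← hcond]
    rfl

end Pool.Agent.H72.LGR
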