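import Pool.Agent.H11.LGR.Targets

/-! # Row CMP: a normal unipotent subgroup of bounded index -/

set_option autoImplicit false

open MvPolynomial Pool.Agent.H87.CLG Pool.Agent.H11.LGR

namespace Pool.Agent.H72.LGR

section rep

variable {F W Γ : Type} [Field F] [AddCommGroup W] [Module F W] [Group Γ]

/-- the representation on an invariant subspace -/
def resV (ρ : Γ →* Module.End F W) (V : Submodule F W) (hV : ∀ g, ∀ u ∈ V, ρ g u ∈ V) :
    Γ →* Module.End F V where
  toFun g := (ρ g).restrict (hV g)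
  map_one' := by ext x; simp
  map_mul' a b := by ext x; simp

/-- the representation on the quotient -/
def quoV (ρ : Γ →* Module.End F W) (V : Submodule F W) (hV : ∀ g, ∀ u ∈ V, ρ g u ∈ V) :
    Γ →* Module.End F (W ⧸ V) where
  toFun g := V.mapQ V (ρ g) (hV g)
  map_one' := by
    refine LinearMap.ext fun q => ?_
    obtain ⟨w, rfl⟩ := V.mkQ_surjective q
    simp
  map_mul' a b := by
    refine LinearMap.ext fun q => ?_
    obtain ⟨w, rfl⟩ := V.mkQ_surjective q
    simp

theorem resV_apply (ρ : Γ →* Module.End F W) (V : Submodule F W)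
    (hV : ∀ g, ∀ u ∈ V, ρ g u ∈ V) (g : Γ) (v : V) : ((resV ρ V hV g v : V) : W) = ρ g v := rfl

theorem quoV_apply (ρ : Γ →* Module.End F W) (V : Submodule F W)
    (hV : ∀ g, ∀ u ∈ V, ρ g u ∈ V) (g : Γ) (w : W) :
    quoV ρ V hV g (V.mkQ w) = V.mkQ (ρ g w) := rfl

theorem resV_pow (ρ : Γ →* Module.End F W) (V : Submodule F W)
    (hV : ∀ g, ∀ u ∈ V, ρ g u ∈ V) (g : Γ) (k : ℕ) (v : V) :
    ((((resV ρ V hV g - 1) ^ k) v : V) : W) = ((ρ g - 1) ^ k) (v : W) := by
  induction k generalizing v with
  | zero => simp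
  | succ k ih =>
    rw [pow_succ, pow_succ, Module.End.mul_apply, Module.End.mul_apply, ih]
    rfl

theorem quoV_pow (ρ : Γ →* Module.End F W) (V : Submodule F W)
    (hV : ∀ g, ∀ u ∈ V, ρ g u ∈ V) (g : Γ) (k : ℕ) (w : W) :
    ((quoV ρ V hV g - 1) ^ k) (V.mkQ w) = V.mkQ (((ρ g - 1) ^ k) w) := by
  induction k generalizing w with
  | zero => simp
  | succ k ih =>
    rw [pow_succ, pow_succ, Module.End.mul_apply, Module.End.mul_apply, ← ih]
    rfl

end rep

theorem pf_CMP (hSIB : T_SIB) : T_CMP := by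
  intro n ν hν
  induction n with
  | zero =>
    refine ⟨1, one_pos, fun F W Γ _ _ _ _ _ _ X ρ _ _ hn => ⟨⊤, inferInstance, ?_, ?_, ?_⟩⟩
    · simp
    · simp
    · intro u _
      haveI : Subsingleton W := Module.finrank_zero_iff.1 (Nat.le_zero.1 hn)
      exact Subsingleton.elim _ _
  | succ n ih =>
    obtain ⟨B', hB', ih⟩ := ih
    obtain ⟨B1, hB1, hS⟩ := hSIB (n + 1) ν hν
    refine ⟨max B1 (B' * B'), lt_max_of_lt_left hB1, fun F W Γ _ _ _ _ _ _ X ρ hX hL hn => ?_⟩
    by_cases h0 : Module.finrank F W = 0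
    · refine ⟨⊤, inferInstance, by simp, ?_, fun u _ => ?_⟩
      · rw [Subgroup.index_top]; exact le_max_of_le_left hB1
      · haveI : Subsingleton W := Module.finrank_zero_iff.1 h0
        exact Subsingleton.elim _ _
    by_cases hI : Irr ρ
    · obtain ⟨h1, h2⟩ := hS F W Γ X ρ hX hL hn hI
      refine ⟨ρ.ker, inferInstance, h1, le_max_of_le_left h2, fun u hu => ?_⟩
      rw [MonoidHom.mem_ker.1 hu, sub_self, zero_pow h0]
    · unfold Irr at hI
      push Not at hI
      obtain ⟨V, hV, hbot, htop⟩ := hI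
      have hsum := Submodule.finrank_quotient_add_finrank V
      have hlt : Module.finrank F V < Module.finrank F W := Submodule.finrank_lt htop
      have hpos : 0 < Module.finrank F V := by
        rw [Nat.pos_iff_ne_zero]
        intro h
        exact hbot (Submodule.finrank_eq_zero.1 h)
      have hLV : LX ν X (resV ρ V hV) := fun l hl => by
        rw [← map_pow]
        refine LinearMap.ext fun v => Subtype.ext ?_
        rw [resV_apply, map_pow, hL l hl]
        rfl
      have hLQ : LX ν X (quoV ρ V hV) := fun l hl => by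
        rw [← map_pow]
        refine LinearMap.ext fun q => ?_
        obtain ⟨w, rfl⟩ := V.mkQ_surjective q
        rw [quoV_apply, map_pow, hL l hl]
        rfl
      obtain ⟨U1, hn1, hi1, hb1, hu1⟩ := ih F V Γ X (resV ρ V hV) hX hLV (by omega)
      obtain ⟨U2, hn2, hi2, hb2, hu2⟩ := ih F (W ⧸ V) Γ X (quoV ρ V hV) hX hLQ (by omega)
      refine ⟨U1 ⊓ U2, inferInstance, Subgroup.index_inf_ne_zero hi1 hi2, ?_, fun u hu => ?_⟩
      · exact (Subgroup.index_inf_le (H := U1) (K := U2)).trans
          ((Nat.mul_le_mul hb1 hb2).trans (le_max_right _ _))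
      · obtain ⟨hu1', hu2'⟩ := Subgroup.mem_inf.1 hu
        rw [← hsum, add_comm, pow_add]
        refine LinearMap.ext fun w => ?_
        rw [Module.End.mul_apply, LinearMap.zero_apply]
        have hw : ((ρ u - 1) ^ Module.finrank F (W ⧸ V)) w ∈ V := by
          have h3 := quoV_pow ρ V hV u (Module.finrank F (W ⧸ V)) w
          rw [hu2 u hu2', LinearMap.zero_apply] at h3
          exact (Submodule.Quotient.mk_eq_zero V).1 h3.symm
        have h4 := resV_pow ρ V hV u (Module.finrank F V) ⟨_, hw⟩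
        rw [hu1 u hu1', LinearMap.zero_apply] at h4
        exact h4.symm

end Pool.Agent.H72.LGR
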